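import Mathlib

/-!
# Counting solutions of linear congruences in boxes (MP_6e60ff_nt)
-/

set_option autoImplicit false
open Finset

namespace Pool.Agent.W2helper36.RF

/-- the interval `[-H, H]` -/
noncomputable def bx (H : ℕ) : Finset ℤ := Finset.Icc (-(H : ℤ)) H

theorem card_bx (H : ℕ) : (bx H).card = 2 * H + 1 := by
  unfold bx
  rw [Int.card_Icc]
  omega

/-- the vectors of the box with `q ∣ ∑ v_i y_i - t` -/
noncomputable def sol (H n : ℕ) (y : Fin n → ℤ) (q : ℕ) (t : ℤ) : Finset (Fin n → ℤ) :=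
  (Fintype.piFinset fun _ : Fin n => bx H).filter fun v => (q : ℤ) ∣ ∑ i, v i * y i - t

theorem mem_sol {H n : ℕ} {y : Fin n → ℤ} {q : ℕ} {t : ℤ} {v : Fin n → ℤ} :
    v ∈ sol H n y q t ↔ (∀ i, v i ∈ bx H) ∧ (q : ℤ) ∣ ∑ i, v i * y i - t := by
  unfold sol
  rw [mem_filter, Fintype.mem_piFinset]

/-- one residue class modulo `e` in `[-H, H]` -/
theorem card_class (H e : ℕ) (he : 1 ≤ e) (v : ℤ) :
    ((((bx H).filter fun x => x ≡ v [ZMOD (e : ℤ)]).card : ℕ) : ℝ) ≤
      ((2 * H + 1 : ℕ) : ℝ) / e + 1 := by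
  have h0 : bx H = Finset.Ioc (-(H : ℤ) - 1) H := by
    ext x
    simp only [bx, mem_Icc, mem_Ioc]
    omega
  have he0 : (0 : ℤ) < e := by exact_mod_cast he
  have h := Int.Ioc_filter_modEq_card (-(H : ℤ) - 1) H he0 v
  rw [h0]
  have h1 : ((((Finset.Ioc (-(H : ℤ) - 1) H).filter fun x => x ≡ v [ZMOD (e : ℤ)]).card : ℤ) : ℝ)
      ≤ ((2 * H + 1 : ℕ) : ℝ) / e + 1 := by
    rw [h]
    have heR : (0 : ℝ) < e := by exact_mod_cast he
    have h2 : (⌊((H : ℤ) - v) / ((e : ℤ) : ℚ)⌋ : ℚ) ≤ ((H : ℤ) - v) / ((e : ℤ) : ℚ) :=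
      Int.floor_le _
    have h3 : (((-(H : ℤ) - 1 : ℤ) : ℚ) - v) / ((e : ℤ) : ℚ) - 1 <
        (⌊(((-(H : ℤ) - 1 : ℤ) : ℚ) - v) / ((e : ℤ) : ℚ)⌋ : ℚ) := Int.sub_one_lt_floor _
    have h4 : (((max (⌊((((H : ℤ)) : ℚ) - v) / ((e : ℤ) : ℚ)⌋ -
        ⌊(((-(H : ℤ) - 1 : ℤ) : ℚ) - v) / ((e : ℤ) : ℚ)⌋) 0 : ℤ) : ℚ)) ≤
        ((2 * H + 1 : ℕ) : ℚ) / e + 1 := by
      push_cast
      push_cast at h2 h3
      apply max_le
      · have h5 : ((H : ℚ) - v) / e - ((-(H : ℚ) - 1 - v) / e) = (2 * H + 1) / e := by ring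
        linarith
      · positivity
    have h5 := (Rat.cast_le (K := ℝ)).2 h4
    rw [Rat.cast_intCast] at h5
    refine h5.trans (le_of_eq ?_)
    push_cast
    ring
  exact_mod_cast h1

theorem card_sol (H : ℕ) : ∀ (n : ℕ) (y : Fin n → ℤ) (q : ℕ) (t : ℤ), 1 ≤ q →
    (∀ e : ℕ, e ∣ q → (∀ i, (e : ℤ) ∣ y i) → e = 1) →
    (((sol H n y q t).card : ℕ) : ℝ) ≤
      3 ^ n * ((2 * H + 1 : ℕ) : ℝ) ^ n * (1 / q + 1 / ((2 * H + 1 : ℕ) : ℝ)) := by
  intro n
  induction n with
  | zero =>
    intro y q t hq hg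
    have h1 : q = 1 := hg q dvd_rfl (fun i => i.elim0)
    have h2 : (sol H 0 y q t).card ≤ 1 := by
      apply Finset.card_le_one.2
      intro a _ b _
      exact Subsingleton.elim a b
    have h3 : (((sol H 0 y q t).card : ℕ) : ℝ) ≤ 1 := by exact_mod_cast h2
    subst h1
    have h4 : (0 : ℝ) ≤ 1 / ((2 * H + 1 : ℕ) : ℝ) := by positivity
    simp only [pow_zero, mul_one, one_mul, Nat.cast_one, div_one]
    linarith
  | succ n ih =>
    intro y q t hq hg
    set M : ℝ := ((2 * H + 1 : ℕ) : ℝ) with hM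
    have hM1 : (1 : ℝ) ≤ M := by
      rw [hM]; push_cast; have : (0 : ℝ) ≤ H := Nat.cast_nonneg H; linarith
    set e : ℕ := Nat.gcd q (Finset.univ.gcd fun i : Fin n => (y i.succ).natAbs) with he
    have heq : e ∣ q := Nat.gcd_dvd_left _ _
    have hey : ∀ i : Fin n, (e : ℤ) ∣ y i.succ := by
      intro i
      rw [Int.natCast_dvd]
      exact (Nat.gcd_dvd_right _ _).trans (Finset.gcd_dvd (mem_univ i))
    have he1 : 1 ≤ e := Nat.gcd_pos_of_pos_left _ hq
    obtain ⟨q1, hq1⟩ := heq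
    have hq11 : 1 ≤ q1 := by
      rcases Nat.eq_zero_or_pos q1 with h | h
      · rw [h] at hq1; omega
      · exact h
    choose y1 hy1 using hey
    have he0 : (e : ℤ) ≠ 0 := by exact_mod_cast (by omega : e ≠ 0)
    -- coprimality of the reduced system
    have hg1 : ∀ e' : ℕ, e' ∣ q1 → (∀ i, (e' : ℤ) ∣ y1 i) → e' = 1 := by
      intro e' h1 h2
      have h3 : e * e' ∣ e := by
        rw [he]
        apply Nat.dvd_gcd
        · rw [← he, hq1]
          exact mul_dvd_mul_left e h1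
        · apply Finset.dvd_gcd
          intro i _
          rw [← Int.natCast_dvd]
          rw [hy1 i, ← he]
          push_cast
          exact mul_dvd_mul_left _ (h2 i)
      have h4 : e * e' ∣ e * 1 := by rwa [mul_one]
      exact Nat.dvd_one.1 (Nat.dvd_of_mul_dvd_mul_left he1 h4)
    -- `e` is prime to `y 0`
    have hcop : IsCoprime (e : ℤ) (y 0) := by
      rw [Int.isCoprime_iff_gcd_eq_one]
      apply hg
      · exact (Int.gcd_dvd_natAbs_left (e : ℤ) (y 0)).trans (by
          rw [Int.natAbs_natCast, hq1]; exact dvd_mul_right e q1)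
      · intro i
        refine Fin.cases ?_ ?_ i
        · exact Int.gcd_dvd_right _ _
        · intro j
          exact (Int.gcd_dvd_left _ _).trans (by rw [hy1 j]; exact dvd_mul_right _ _)
    -- the admissible first coordinates
    set R : Finset ℤ := (bx H).filter fun x => (e : ℤ) ∣ x * y 0 - t with hR
    have hRcard : ((R.card : ℕ) : ℝ) ≤ M / e + 1 := by
      rcases R.eq_empty_or_nonempty with h | ⟨x0, hx0⟩
      · rw [h, card_empty, Nat.cast_zero]
        positivity
      · have hsub : R ⊆ (bx H).filter fun x => x ≡ x0 [ZMOD (e : ℤ)] := by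
          intro x hx
          rw [hR, mem_filter] at hx hx0
          rw [mem_filter]
          refine ⟨hx.1, ?_⟩
          have h1 : (e : ℤ) ∣ (x0 - x) * y 0 := by
            have h2 := dvd_sub hx0.2 hx.2
            have h3 : x0 * y 0 - t - (x * y 0 - t) = (x0 - x) * y 0 := by ring
            rwa [h3] at h2
          exact (Int.modEq_iff_dvd).2 (hcop.dvd_of_dvd_mul_right h1)
        calc ((R.card : ℕ) : ℝ) ≤ _ := by exact_mod_cast card_le_card hsub
          _ ≤ _ := card_class H e he1 x0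
    have hmaps : ∀ v ∈ sol H (n + 1) y q t, v 0 ∈ R := by
      intro v hv
      rw [mem_sol] at hv
      rw [hR, mem_filter]
      refine ⟨hv.1 0, ?_⟩
      have h1 : (e : ℤ) ∣ ∑ i, v i * y i - t := (by
        rw [hq1]; push_cast; exact dvd_mul_right _ _ : (e : ℤ) ∣ (q : ℤ)).trans hv.2
      rw [Fin.sum_univ_succ] at h1
      have h2 : (e : ℤ) ∣ ∑ i : Fin n, v i.succ * y i.succ :=
        dvd_sum fun i _ => Dvd.dvd.mul_left (by rw [hy1 i]; exact dvd_mul_right _ _) _
      have h3 := dvd_sub h1 h2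
      have h4 : v 0 * y 0 + ∑ i : Fin n, v i.succ * y i.succ - t -
          ∑ i : Fin n, v i.succ * y i.succ = v 0 * y 0 - t := by ring
      rwa [h4] at h3
    rw [Finset.card_eq_sum_card_fiberwise hmaps, Nat.cast_sum]
    have hfib : ∀ c ∈ R, ((((sol H (n + 1) y q t).filter fun v => v 0 = c).card : ℕ) : ℝ) ≤
        3 ^ n * M ^ n * (1 / q1 + 1 / M) := by
      intro c hc
      rw [hR, mem_filter] at hc
      obtain ⟨s, hs⟩ := hc.2
      refine le_trans ?_ (ih y1 q1 (-s) hq11 hg1)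
      norm_cast
      apply Finset.card_le_card_of_injOn (fun v i => v (Fin.succ i))
      · intro v hv
        rw [mem_coe, mem_filter, mem_sol] at hv
        rw [mem_coe, mem_sol]
        refine ⟨fun i => hv.1.1 i.succ, ?_⟩
        have h1 := hv.1.2
        rw [Fin.sum_univ_succ, hv.2, hq1] at h1
        have h2 : c * y 0 + ∑ i : Fin n, v i.succ * y i.succ - t =
            (e : ℤ) * (∑ i : Fin n, v i.succ * y1 i - -s) := by
          have h3 : ∑ i : Fin n, v i.succ * y i.succ = (e : ℤ) * ∑ i : Fin n, v i.succ * y1 i := by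
            rw [mul_sum]
            exact sum_congr rfl fun i _ => by rw [hy1 i]; ring
          rw [h3]
          linear_combination hs
        rw [h2] at h1
        push_cast at h1
        exact (mul_dvd_mul_iff_left he0).1 h1
      · intro v hv w hw hvw
        rw [mem_coe, mem_filter] at hv hw
        funext i
        refine Fin.cases ?_ ?_ i
        · rw [hv.2, hw.2]
        · intro j
          exact congrFun hvw j
    calc ∑ c ∈ R, ((((sol H (n + 1) y q t).filter fun v => v 0 = c).card : ℕ) : ℝ)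
        ≤ ∑ c ∈ R, 3 ^ n * M ^ n * (1 / q1 + 1 / M) := sum_le_sum hfib
      _ = (R.card : ℝ) * (3 ^ n * M ^ n * (1 / q1 + 1 / M)) := by
        rw [sum_const, nsmul_eq_mul]
      _ ≤ (M / e + 1) * (3 ^ n * M ^ n * (1 / q1 + 1 / M)) := by
        apply mul_le_mul_of_nonneg_right hRcard
        positivity
      _ ≤ 3 ^ (n + 1) * M ^ (n + 1) * (1 / q + 1 / M) := by
        have heR : (1 : ℝ) ≤ e := by exact_mod_cast he1
        have hqR : (1 : ℝ) ≤ q1 := by exact_mod_cast hq11
        have hqq : (q : ℝ) = e * q1 := by rw [hq1]; push_cast; ring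
        have hM0 : 0 < M := by linarith
        have he0' : (0 : ℝ) < e := by linarith
        have hq0' : (0 : ℝ) < q1 := by linarith
        have h1 : (M / e + 1) * (1 / q1 + 1 / M) ≤ 3 * M * (1 / q + 1 / M) := by
          have e1 : (M / e + 1) * (1 / q1 + 1 / M) =
              M * (1 / (e * q1)) + 1 / e + 1 / q1 + 1 / M := by
            field_simp
            ring
          have e2 : 3 * M * (1 / q + 1 / M) = 3 * (M * (1 / (e * q1))) + 3 := by
            rw [hqq]
            field_simp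
          rw [e1, e2]
          have f1 : (1 : ℝ) / e ≤ 1 := by rw [div_le_one he0']; exact heR
          have f2 : (1 : ℝ) / q1 ≤ 1 := by rw [div_le_one hq0']; exact hqR
          have f3 : (1 : ℝ) / M ≤ 1 := by rw [div_le_one hM0]; exact hM1
          have f4 : 0 ≤ M * (1 / ((e : ℝ) * q1)) := by positivity
          linarith
        have h2 : (M / e + 1) * (3 ^ n * M ^ n * (1 / q1 + 1 / M)) =
            3 ^ n * M ^ n * ((M / e + 1) * (1 / q1 + 1 / M)) := by ring
        have h3 : 3 ^ (n + 1) * M ^ (n + 1) * (1 / q + 1 / M) =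
            3 ^ n * M ^ n * (3 * M * (1 / q + 1 / M)) := by ring
        rw [h2, h3]
        exact mul_le_mul_of_nonneg_left h1 (by positivity)

end Pool.Agent.W2helper36.RF
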