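import Pool.Agent.W2helper36.RF.A

/-!
# Forms with a given zero (MP_6e60ff_nt)
-/

set_option autoImplicit false
open Finset

namespace Pool.Agent.W2helper36.RF

/-- `∑_{j<d} x0^j ∑_i c j i * x' i^(d-j) + b * x0^d` -/
def F (x0 : ℤ) {n : ℕ} (x' : Fin n → ℤ) (d : ℕ) (c : Fin d → Fin n → ℤ) (b : ℤ) : ℤ :=
  ∑ j : Fin d, x0 ^ (j : ℕ) * ∑ i, c j i * x' i ^ (d - (j : ℕ)) + b * x0 ^ d

theorem F_succ (x0 : ℤ) {n : ℕ} (x' : Fin n → ℤ) (d : ℕ) (c : Fin (d + 1) → Fin n → ℤ) (b : ℤ) :
    F x0 x' (d + 1) c b =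
      ∑ i, c 0 i * x' i ^ (d + 1) + x0 * F x0 x' d (fun j => c j.succ) b := by
  unfold F
  rw [Fin.sum_univ_succ]
  simp only [Fin.val_zero, pow_zero, one_mul, Nat.sub_zero, Fin.val_succ, Nat.add_sub_add_right]
  have h : ∀ j : Fin d, x0 ^ ((j : ℕ) + 1) * ∑ i, c j.succ i * x' i ^ (d - (j : ℕ)) =
      x0 * (x0 ^ (j : ℕ) * ∑ i, c j.succ i * x' i ^ (d - (j : ℕ))) := fun j => by ring
  rw [sum_congr rfl fun j _ => h j, ← mul_sum]
  ring

/-- the coefficients in the box with `F = t` -/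
noncomputable def T (H : ℕ) (x0 : ℤ) {n : ℕ} (x' : Fin n → ℤ) (d : ℕ) (t : ℤ) :
    Finset ((Fin d → Fin n → ℤ) × ℤ) :=
  ((Fintype.piFinset fun _ : Fin d => Fintype.piFinset fun _ : Fin n => bx H) ×ˢ bx H).filter
    fun p => F x0 x' d p.1 p.2 = t

theorem mem_T {H : ℕ} {x0 : ℤ} {n : ℕ} {x' : Fin n → ℤ} {d : ℕ} {t : ℤ}
    {p : (Fin d → Fin n → ℤ) × ℤ} : p ∈ T H x0 x' d t ↔
      ((∀ j i, p.1 j i ∈ bx H) ∧ p.2 ∈ bx H) ∧ F x0 x' d p.1 p.2 = t := by
  unfold T
  rw [mem_filter, mem_product, Fintype.mem_piFinset]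
  simp only [Fintype.mem_piFinset]

theorem card_T {H : ℕ} {x0 : ℤ} (hx0 : x0 ≠ 0) {n : ℕ} (x' : Fin n → ℤ) (K : ℕ)
    (hK : ∀ (k : ℕ) (t : ℤ), 1 ≤ k → (sol H n (fun i => x' i ^ k) x0.natAbs t).card ≤ K) :
    ∀ (d : ℕ) (t : ℤ), (T H x0 x' d t).card ≤ K ^ d := by
  intro d
  induction d with
  | zero =>
    intro t
    rw [pow_zero]
    apply Finset.card_le_one.2
    intro a ha b hb
    rw [mem_T] at ha hb
    have h1 := ha.2
    have h2 := hb.2
    simp only [F, Finset.univ_eq_empty, Finset.sum_empty, pow_zero, mul_one, zero_add] at h1 h2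
    exact Prod.ext (Subsingleton.elim _ _) (h1.trans h2.symm)
  | succ d ih =>
    intro t
    have hmaps : ∀ p ∈ T H x0 x' (d + 1) t,
        p.1 0 ∈ sol H n (fun i => x' i ^ (d + 1)) x0.natAbs t := by
      intro p hp
      rw [mem_T] at hp
      rw [mem_sol]
      refine ⟨fun i => hp.1.1 0 i, ?_⟩
      have h := hp.2
      rw [F_succ] at h
      rw [Int.natAbs_dvd]
      exact ⟨-F x0 x' d (fun j => p.1 j.succ) p.2, by linear_combination h⟩
    have h1 := Finset.card_le_mul_card_image_of_maps_to hmaps (K ^ d) (by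
      intro v _
      by_cases hv : ∃ p ∈ T H x0 x' (d + 1) t, p.1 0 = v
      · obtain ⟨p0, hp0, hv0⟩ := hv
        refine le_trans ?_ (ih (F x0 x' d (fun j => p0.1 j.succ) p0.2))
        apply Finset.card_le_card_of_injOn (fun p => ((fun j => p.1 (Fin.succ j)), p.2))
        · intro p hp
          rw [mem_coe, mem_filter, mem_T] at hp
          rw [mem_coe, mem_T]
          refine ⟨⟨fun j i => hp.1.1.1 j.succ i, hp.1.1.2⟩, ?_⟩
          have h := hp.1.2
          have h0 := (mem_T.1 hp0).2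
          rw [F_succ] at h h0
          rw [hp.2] at h
          rw [hv0] at h0
          have h2 : x0 * F x0 x' d (fun j => p.1 j.succ) p.2 =
              x0 * F x0 x' d (fun j => p0.1 j.succ) p0.2 := by linear_combination h - h0
          exact mul_left_cancel₀ hx0 h2
        · intro p hp p' hp' hpp
          rw [mem_coe, mem_filter] at hp hp'
          have h2 := Prod.mk.inj hpp
          refine Prod.ext ?_ h2.2
          funext j
          refine Fin.cases ?_ ?_ j
          · rw [hp.2, hp'.2]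
          · intro k
            exact congrFun h2.1 k
      · have h2 : (T H x0 x' (d + 1) t).filter (fun p => p.1 0 = v) = ∅ := by
          rw [filter_eq_empty_iff]
          intro p hp hpv
          exact hv ⟨p, hp, hpv⟩
        rw [h2, card_empty]
        exact Nat.zero_le _)
    calc (T H x0 x' (d + 1) t).card ≤ K ^ d * _ := h1
      _ ≤ K ^ d * K := Nat.mul_le_mul_left _ (hK (d + 1) t (by omega))
      _ = K ^ (d + 1) := (pow_succ K d).symm

theorem card_restrict {ι S : Type} [Fintype ι] [Fintype S] [DecidableEq ι] [DecidableEq S]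
    (σ : S → ι)
    (hσ : Function.Injective σ) (H : ℕ) (m : ι → ℤ) (t : ℤ) (K : ℕ)
    (hK : ∀ t : ℤ, ((Fintype.piFinset fun _ : S => bx H).filter
      fun u => ∑ s, u s * m (σ s) = t).card ≤ K) :
    ((Fintype.piFinset fun _ : ι => bx H).filter fun c => ∑ a, c a * m a = t).card ≤
      K * (2 * H + 1) ^ (Fintype.card ι - Fintype.card S) := by
  classical
  have hcard : (Fintype.piFinset fun _ : {a // ¬ a ∈ Set.range σ} => bx H).card =
      (2 * H + 1) ^ (Fintype.card ι - Fintype.card S) := by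
    rw [Fintype.card_piFinset, prod_const, card_bx, card_univ, Fintype.card_subtype_compl]
    congr 2
    exact (Fintype.card_congr (Equiv.ofInjective σ hσ)).symm
  have hsplit : ∀ c : ι → ℤ, ∑ a, c a * m a = ∑ s, c (σ s) * m (σ s) +
      ∑ a : {a // ¬ a ∈ Set.range σ}, c a * m a := by
    intro c
    rw [← Fintype.sum_subtype_add_sum_subtype (fun a => a ∈ Set.range σ)]
    congr 1
    exact (@Fintype.sum_equiv S {a // a ∈ Set.range σ} ℤ _
      (Subtype.fintype fun a => a ∈ Set.range σ) _ (Equiv.ofInjective σ hσ)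
      (fun s => c (σ s) * m (σ s)) (fun a => c a * m a) (fun s => rfl)).symm
  rw [← hcard]
  apply Finset.card_le_mul_card_image_of_maps_to
    (f := fun (c : ι → ℤ) (a : {a // ¬ a ∈ Set.range σ}) => c a)
  · intro c hc
    rw [mem_filter, Fintype.mem_piFinset] at hc
    rw [Fintype.mem_piFinset]
    exact fun a => hc.1 a
  · intro r _
    refine le_trans ?_ (hK (t - ∑ a : {a // ¬ a ∈ Set.range σ}, r a * m a))
    apply Finset.card_le_card_of_injOn (fun c s => c (σ s))
    · intro c hc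
      rw [mem_coe, mem_filter, mem_filter, Fintype.mem_piFinset] at hc
      rw [mem_coe, mem_filter, Fintype.mem_piFinset]
      refine ⟨fun s => hc.1.1 _, ?_⟩
      have h1 := hc.1.2
      rw [hsplit] at h1
      have h2 : ∀ a : {a // ¬ a ∈ Set.range σ}, c a = r a := fun a => congrFun hc.2 a
      have h3 : ∑ a : {a // ¬ a ∈ Set.range σ}, c a * m a =
          ∑ a : {a // ¬ a ∈ Set.range σ}, r a * m a := sum_congr rfl fun a _ => by rw [h2 a]
      rw [h3] at h1
      linear_combination h1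
    · intro c hc c' hc' hcc
      rw [mem_coe, mem_filter] at hc hc'
      funext a
      by_cases ha : a ∈ Set.range σ
      · obtain ⟨s, rfl⟩ := ha
        exact congrFun hcc s
      · have h1 := congrFun hc.2 ⟨a, ha⟩
        have h2 := congrFun hc'.2 ⟨a, ha⟩
        exact h1.trans h2.symm

end Pool.Agent.W2helper36.RF
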