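import Pool.Agent.W2helper36.RF.B

/-!
# Forms of degree `d` with a given zero (MP_6e60ff_nt)
-/

set_option autoImplicit false
open Finset

namespace Pool.Agent.W2helper36.RF

/-- the exponents of the monomials of degree `d` in `n + 1` variables -/
abbrev Expo (n d : ℕ) : Type := ↥(Finset.Nat.antidiagonalTuple (n + 1) d)

/-- the value of the form with coefficients `c` at `x` -/
def value {n d : ℕ} (c : Expo n d → ℤ) (x : Fin (n + 1) → ℤ) : ℤ :=
  ∑ a, c a * ∏ i, x i ^ (a.1 i)

/-- the monomials `x_{i0}^d` and `x_{i0}^j x_i^{d-j}`, `j < d` -/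
def sg (n d : ℕ) (i0 : Fin (n + 1)) : Option (Fin d × Fin n) → Expo n d
  | none => ⟨Pi.single i0 d, by
      rw [Finset.Nat.mem_antidiagonalTuple]; exact Fintype.sum_pi_single' i0 d⟩
  | some p => ⟨Pi.single i0 (p.1 : ℕ) + Pi.single (i0.succAbove p.2) (d - (p.1 : ℕ)), by
      rw [Finset.Nat.mem_antidiagonalTuple]
      simp only [Pi.add_apply, sum_add_distrib]
      rw [Fintype.sum_pi_single', Fintype.sum_pi_single']
      have := p.1.2
      omega⟩

theorem sg_injective (n d : ℕ) (i0 : Fin (n + 1)) : Function.Injective (sg n d i0) := by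
  intro s s' h
  have hne : ∀ i : Fin n, i0.succAbove i ≠ i0 := fun i => Fin.succAbove_ne i0 i
  have h1 : (sg n d i0 s).1 = (sg n d i0 s').1 := by rw [h]
  rcases s with _ | ⟨j, i⟩ <;> rcases s' with _ | ⟨j', i'⟩
  · rfl
  · exfalso
    have h2 := congrFun h1 i0
    simp only [sg, Pi.add_apply, Pi.single_eq_same, Pi.single_eq_of_ne (hne i').symm] at h2
    have := j'.2
    omega
  · exfalso
    have h2 := congrFun h1 i0
    simp only [sg, Pi.add_apply, Pi.single_eq_same, Pi.single_eq_of_ne (hne i).symm] at h2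
    have := j.2
    omega
  · have h2 := congrFun h1 i0
    simp only [sg, Pi.add_apply, Pi.single_eq_same, Pi.single_eq_of_ne (hne i).symm,
      Pi.single_eq_of_ne (hne i').symm, add_zero] at h2
    have hj : j = j' := Fin.ext h2
    subst hj
    have h3 := congrFun h1 (i0.succAbove i)
    simp only [sg, Pi.add_apply, Pi.single_eq_same, Pi.single_eq_of_ne (hne i), zero_add] at h3
    have hi : i = i' := by
      by_contra hcon
      rw [Pi.single_eq_of_ne (fun h => hcon (Fin.succAbove_right_injective h))] at h3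
      have := j.2
      omega
    rw [hi]

theorem prod_single {n : ℕ} (x : Fin (n + 1) → ℤ) (i0 : Fin (n + 1)) (k : ℕ) :
    ∏ i, x i ^ ((Pi.single i0 k : Fin (n + 1) → ℕ) i) = x i0 ^ k := by
  rw [Finset.prod_eq_single i0]
  · rw [Pi.single_eq_same]
  · intro b _ hb
    rw [Pi.single_eq_of_ne hb, pow_zero]
  · intro h
    exact absurd (mem_univ _) h

theorem sum_sg {n d : ℕ} (x : Fin (n + 1) → ℤ) (i0 : Fin (n + 1))
    (u : Option (Fin d × Fin n) → ℤ) :
    ∑ s, u s * ∏ i, x i ^ ((sg n d i0 s).1 i) =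
      F (x i0) (fun i => x (i0.succAbove i)) d (fun j i => u (some (j, i))) (u none) := by
  rw [Fintype.sum_option, Fintype.sum_prod_type]
  unfold F
  rw [add_comm]
  congr 1
  · refine sum_congr rfl fun j _ => ?_
    rw [mul_sum]
    refine sum_congr rfl fun i _ => ?_
    simp only [sg, Pi.add_apply, pow_add, prod_mul_distrib]
    rw [prod_single, prod_single]
    ring
  · simp only [sg]
    rw [prod_single]

/-- the number of forms of height at most `H` which vanish at the primitive vector `x` -/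
theorem card_Z (n d H : ℕ) (x : Fin (n + 1) → ℤ) (i0 : Fin (n + 1)) (hx : x i0 ≠ 0)
    (hprim : ∀ e : ℕ, (∀ i, (e : ℤ) ∣ x i) → e = 1) :
    ((((Fintype.piFinset fun _ : Expo n d => bx H).filter fun c => value c x = 0).card : ℕ) : ℝ)
      ≤ 3 ^ (n * d) * (1 / ((x i0).natAbs : ℝ) + 1 / ((2 * H + 1 : ℕ) : ℝ)) ^ d *
        ((2 * H + 1 : ℕ) : ℝ) ^ (Fintype.card (Expo n d)) / ((2 * H + 1 : ℕ) : ℝ) := by
  set M : ℝ := ((2 * H + 1 : ℕ) : ℝ) with hM
  have hM0 : 0 < M := by rw [hM]; positivity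
  set q : ℕ := (x i0).natAbs with hq
  have hq1 : 1 ≤ q := Int.natAbs_pos.2 hx
  set K : ℕ := ⌊3 ^ n * M ^ n * (1 / (q : ℝ) + 1 / M)⌋₊ with hKdef
  have hK0 : (0 : ℝ) ≤ 3 ^ n * M ^ n * (1 / (q : ℝ) + 1 / M) := by positivity
  have hK : ∀ (k : ℕ) (t : ℤ), 1 ≤ k →
      (sol H n (fun i => x (i0.succAbove i) ^ k) (x i0).natAbs t).card ≤ K := by
    intro k t hk
    apply Nat.le_floor
    apply card_sol H n _ _ t hq1
    intro e he1 he2
    by_contra hcon
    obtain ⟨p, hp, hpe⟩ := Nat.exists_prime_and_dvd hcon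
    have h1 : ∀ i, (p : ℤ) ∣ x i := by
      rw [Fin.forall_iff_succAbove i0]
      refine ⟨Int.natCast_dvd.2 (hpe.trans he1), fun i => ?_⟩
      have h2 : (p : ℤ) ∣ x (i0.succAbove i) ^ k :=
        (Int.natCast_dvd_natCast.2 hpe).trans (he2 i)
      exact (Nat.prime_iff_prime_int.1 hp).dvd_of_dvd_pow h2
    exact hp.one_lt.ne' (hprim p h1)
  have hT := card_T hx (fun i => x (i0.succAbove i)) K hK d
  have hres := card_restrict (sg n d i0) (sg_injective n d i0) H
    (fun a : Expo n d => ∏ i, x i ^ (a.1 i)) 0 (K ^ d) (by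
      intro t
      refine le_trans ?_ (hT t)
      apply Finset.card_le_card_of_injOn
        (fun u : Option (Fin d × Fin n) → ℤ => ((fun j i => u (some (j, i))), u none))
      · intro u hu
        rw [mem_coe, mem_filter, Fintype.mem_piFinset, sum_sg] at hu
        rw [mem_coe, mem_T]
        exact ⟨⟨fun j i => hu.1 _, hu.1 _⟩, hu.2⟩
      · intro u _ u' _ huu
        have h2 := Prod.mk.inj huu
        funext s
        rcases s with _ | ⟨j, i⟩
        · exact h2.2
        · exact congrFun (congrFun h2.1 j) i)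
  have hcS : Fintype.card (Option (Fin d × Fin n)) = n * d + 1 := by
    rw [Fintype.card_option, Fintype.card_prod, Fintype.card_fin, Fintype.card_fin, mul_comm]
  have hle : n * d + 1 ≤ Fintype.card (Expo n d) := by
    rw [← hcS]
    exact Fintype.card_le_of_injective _ (sg_injective n d i0)
  rw [hcS] at hres
  have h1 : ((((Fintype.piFinset fun _ : Expo n d => bx H).filter
      fun c => value c x = 0).card : ℕ) : ℝ) ≤
      (K : ℝ) ^ d * M ^ (Fintype.card (Expo n d) - (n * d + 1)) := by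
    rw [hM]
    have h2 : ((Fintype.piFinset fun _ : Expo n d => bx H).filter
      fun c => value c x = 0).card ≤ K ^ d *
        (2 * H + 1) ^ (Fintype.card (Expo n d) - (n * d + 1)) := by
      exact hres
    exact_mod_cast h2
  refine h1.trans ?_
  have h2 : (K : ℝ) ≤ 3 ^ n * M ^ n * (1 / (q : ℝ) + 1 / M) := Nat.floor_le hK0
  have h3 : (K : ℝ) ^ d ≤ (3 ^ n * M ^ n * (1 / (q : ℝ) + 1 / M)) ^ d :=
    pow_le_pow_left₀ (Nat.cast_nonneg _) h2 d
  refine (mul_le_mul_of_nonneg_right h3 (by positivity)).trans (le_of_eq ?_)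
  rw [eq_div_iff hM0.ne', mul_pow, mul_pow, ← pow_mul, ← pow_mul]
  have h4 : M ^ (Fintype.card (Expo n d)) =
      M ^ (n * d) * M ^ (Fintype.card (Expo n d) - (n * d + 1)) * M := by
    rw [← pow_add, ← pow_succ]
    congr 1
    omega
  rw [h4]
  ring

end Pool.Agent.W2helper36.RF
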