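import Pool.Agent.W2helper36.RF.C

/-!
# The union bound (MP_6e60ff_nt)
-/

set_option autoImplicit false
open Finset

namespace Pool.Agent.W2helper36.RF

/-- nonzero forms of height at most `H` -/
def forms (n d H : ℕ) : Set (Expo n d → ℤ) := {c | c ≠ 0 ∧ ∀ a, |c a| ≤ H}

/-- those with a nontrivial zero of height at most `B` -/
def withZero (n d H : ℕ) (B : ℝ) : Set (Expo n d → ℤ) :=
  {c | c ∈ forms n d H ∧ ∃ x : Fin (n + 1) → ℤ, x ≠ 0 ∧ (∀ i, |(x i : ℝ)| ≤ B) ∧ value c x = 0}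

theorem mem_bx {H : ℕ} {z : ℤ} : z ∈ bx H ↔ |z| ≤ H := by
  unfold bx
  rw [mem_Icc, abs_le]

theorem value_smul {n d : ℕ} (c : Expo n d → ℤ) (g : ℤ) (x : Fin (n + 1) → ℤ) :
    value c (fun i => g * x i) = g ^ d * value c x := by
  unfold value
  rw [mul_sum]
  refine sum_congr rfl fun a _ => ?_
  have h : ∏ i, (g * x i) ^ (a.1 i) = g ^ d * ∏ i, x i ^ (a.1 i) := by
    simp only [mul_pow, prod_mul_distrib]
    rw [prod_pow_eq_pow_sum, (Finset.Nat.mem_antidiagonalTuple.1 a.2)]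
  rw [h]
  ring

/-- a zero may be taken primitive -/
theorem exists_primitive {n d : ℕ} (c : Expo n d → ℤ) (x : Fin (n + 1) → ℤ) (hx : x ≠ 0)
    (h : value c x = 0) : ∃ z : Fin (n + 1) → ℤ, z ≠ 0 ∧ (∀ i, |z i| ≤ |x i|) ∧
      (∀ e : ℕ, (∀ i, (e : ℤ) ∣ z i) → e = 1) ∧ value c z = 0 := by
  obtain ⟨i1, hi1⟩ : ∃ i, x i ≠ 0 := by
    by_contra hcon
    push Not at hcon
    exact hx (funext hcon)
  set g : ℤ := Finset.univ.gcd x with hg
  have hgd : ∀ i, g ∣ x i := fun i => Finset.gcd_dvd (mem_univ i)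
  have hg0 : g ≠ 0 := by
    intro h0
    have := hgd i1
    rw [h0, zero_dvd_iff] at this
    exact hi1 this
  choose z hz using hgd
  have hxz : x = fun i => g * z i := funext hz
  refine ⟨z, ?_, ?_, ?_, ?_⟩
  · intro h0
    apply hi1
    rw [hz i1, h0]
    simp
  · intro i
    rw [hz i, abs_mul]
    have h1 : 1 ≤ |g| := Int.one_le_abs hg0
    nlinarith [abs_nonneg (z i)]
  · intro e he
    have h1 : g * e ∣ g := by
      conv_rhs => rw [hg]
      apply Finset.dvd_gcd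
      intro i _
      rw [hz i]
      exact mul_dvd_mul_left g (he i)
    have h2 : g * e ∣ g * 1 := by rwa [mul_one]
    have h3 : (e : ℤ) ∣ 1 := (mul_dvd_mul_iff_left hg0).1 h2
    exact Nat.dvd_one.1 (by exact_mod_cast h3)
  · rw [hxz, value_smul] at h
    rcases mul_eq_zero.1 h with h1 | h1
    · exact absurd h1 (pow_ne_zero d hg0)
    · exact h1

open Classical in
/-- the forms of the box vanishing at `x`, if `x` is primitive -/
noncomputable def Zp (n d H : ℕ) (x : Fin (n + 1) → ℤ) : Finset (Expo n d → ℤ) :=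
  if ∀ e : ℕ, (∀ i, (e : ℤ) ∣ x i) → e = 1 then
    (Fintype.piFinset fun _ : Expo n d => bx H).filter fun c => value c x = 0 else ∅

/-- the bound for one point -/
noncomputable def P (n d H q : ℕ) : ℝ :=
  3 ^ (n * d) * (1 / (q : ℝ) + 1 / ((2 * H + 1 : ℕ) : ℝ)) ^ d *
    ((2 * H + 1 : ℕ) : ℝ) ^ (Fintype.card (Expo n d)) / ((2 * H + 1 : ℕ) : ℝ)

theorem P_nonneg (n d H q : ℕ) : 0 ≤ P n d H q := by unfold P; positivity

theorem card_Zp (n d H q : ℕ) (hq : 1 ≤ q) (i0 : Fin (n + 1)) (s : ℤ) (hs : s = 1 ∨ s = -1)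
    (x' : Fin n → ℤ) :
    (((Zp n d H (i0.insertNth (s * q) x' : Fin (n + 1) → ℤ)).card : ℕ) : ℝ) ≤ P n d H q := by
  unfold Zp
  split_ifs with h
  · have h0 : (i0.insertNth (s * q) x' : Fin (n + 1) → ℤ) i0 = s * q :=
      Fin.insertNth_apply_same i0 _ _
    have h1 : (i0.insertNth (s * q) x' : Fin (n + 1) → ℤ) i0 ≠ 0 := by
      rw [h0]
      have : (q : ℤ) ≠ 0 := by exact_mod_cast (by omega : q ≠ 0)
      rcases hs with rfl | rfl <;> simpa using this
    have h2 := card_Z n d H _ i0 h1 h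
    have h3 : ((i0.insertNth (s * q) x' : Fin (n + 1) → ℤ) i0).natAbs = q := by
      rw [h0, Int.natAbs_mul, Int.natAbs_natCast]
      rcases hs with rfl | rfl <;> simp
    rw [h3] at h2
    exact h2
  · rw [card_empty, Nat.cast_zero]
    exact P_nonneg n d H q

open Classical in
/-- the union -/
noncomputable def U (n d H b : ℕ) : Finset (Expo n d → ℤ) :=
  (univ : Finset (Fin (n + 1))).biUnion fun i0 => (Finset.Icc 1 b).biUnion fun q =>
    ({1, -1} : Finset ℤ).biUnion fun s => (Fintype.piFinset fun _ : Fin n => bx q).biUnion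
      fun x' => Zp n d H (i0.insertNth (s * q) x' : Fin (n + 1) → ℤ)

theorem card_U (n d H b : ℕ) : (((U n d H b).card : ℕ) : ℝ) ≤
    ((n + 1 : ℕ) : ℝ) * ∑ q ∈ Finset.Icc 1 b, 2 * ((2 * q + 1 : ℕ) : ℝ) ^ n * P n d H q := by
  classical
  have h1 : (U n d H b).card ≤ ∑ i0 : Fin (n + 1), ∑ q ∈ Finset.Icc 1 b,
      ∑ s ∈ ({1, -1} : Finset ℤ), ∑ x' ∈ Fintype.piFinset fun _ : Fin n => bx q,
        (Zp n d H (i0.insertNth (s * q) x' : Fin (n + 1) → ℤ)).card := by
    unfold U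
    refine card_biUnion_le.trans (sum_le_sum fun i0 _ => ?_)
    refine card_biUnion_le.trans (sum_le_sum fun q _ => ?_)
    refine card_biUnion_le.trans (sum_le_sum fun s _ => ?_)
    exact card_biUnion_le
  have h2 : (((U n d H b).card : ℕ) : ℝ) ≤ ∑ i0 : Fin (n + 1), ∑ q ∈ Finset.Icc 1 b,
      ∑ s ∈ ({1, -1} : Finset ℤ), ∑ x' ∈ Fintype.piFinset fun _ : Fin n => bx q,
        (((Zp n d H (i0.insertNth (s * q) x' : Fin (n + 1) → ℤ)).card : ℕ) : ℝ) := by
    exact_mod_cast h1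
  refine h2.trans ?_
  rw [show ((n + 1 : ℕ) : ℝ) * ∑ q ∈ Finset.Icc 1 b,
      2 * ((2 * q + 1 : ℕ) : ℝ) ^ n * P n d H q =
      ∑ i0 : Fin (n + 1), ∑ q ∈ Finset.Icc 1 b,
        2 * ((2 * q + 1 : ℕ) : ℝ) ^ n * P n d H q by
    rw [sum_const, card_univ, Fintype.card_fin, nsmul_eq_mul]]
  refine sum_le_sum fun i0 _ => sum_le_sum fun q hq => ?_
  have hq1 : 1 ≤ q := (mem_Icc.1 hq).1
  have h3 : ∀ s ∈ ({1, -1} : Finset ℤ), ∑ x' ∈ Fintype.piFinset fun _ : Fin n => bx q,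
      (((Zp n d H (i0.insertNth (s * q) x' : Fin (n + 1) → ℤ)).card : ℕ) : ℝ) ≤
        ((2 * q + 1 : ℕ) : ℝ) ^ n * P n d H q := by
    intro s hs
    have hs' : s = 1 ∨ s = -1 := by simpa using hs
    refine (sum_le_card_nsmul _ _ _ fun x' _ => card_Zp n d H q hq1 i0 s hs' x').trans ?_
    rw [nsmul_eq_mul, Fintype.card_piFinset, prod_const, card_bx, card_univ, Fintype.card_fin]
    push_cast
    exact le_refl _
  refine (sum_le_sum h3).trans ?_
  rw [sum_const, nsmul_eq_mul]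
  have h4 : (({1, -1} : Finset ℤ).card : ℝ) = 2 := by norm_num
  rw [h4]
  apply le_of_eq
  ring

theorem withZero_subset (n d H : ℕ) (B : ℝ) :
    withZero n d H B ⊆ (U n d H ⌊B⌋₊ : Finset (Expo n d → ℤ)) := by
  classical
  rintro c ⟨⟨_, hc⟩, x, hx, hxB, hv⟩
  obtain ⟨z, hz0, hzx, hzp, hzv⟩ := exists_primitive c x hx hv
  obtain ⟨i0, -, hi0⟩ := Finset.exists_max_image (univ : Finset (Fin (n + 1)))
    (fun i => (z i).natAbs) univ_nonempty
  have hne : z i0 ≠ 0 := by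
    intro h0
    apply hz0
    funext i
    have h1 := hi0 i (mem_univ i)
    simp only [h0, Int.natAbs_zero] at h1
    exact Int.natAbs_eq_zero.1 (by omega)
  have hB0 : 0 ≤ B := (abs_nonneg _).trans (hxB i0)
  rw [U, mem_coe, mem_biUnion]
  refine ⟨i0, mem_univ _, ?_⟩
  rw [mem_biUnion]
  refine ⟨(z i0).natAbs, ?_, ?_⟩
  · rw [mem_Icc]
    refine ⟨Int.natAbs_pos.2 hne, ?_⟩
    apply Nat.le_floor
    have h2 : ((|z i0| : ℤ) : ℝ) ≤ ((|x i0| : ℤ) : ℝ) := by exact_mod_cast hzx i0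
    have h3 := hxB i0
    rw [Nat.cast_natAbs]
    rw [Int.cast_abs] at h2 ⊢
    rw [Int.cast_abs] at h2
    linarith
  · rw [mem_biUnion]
    refine ⟨(z i0).sign, ?_, ?_⟩
    · rcases lt_or_gt_of_ne hne with h | h
      · rw [Int.sign_eq_neg_one_of_neg h]; simp
      · rw [Int.sign_eq_one_of_pos h]; simp
    · rw [mem_biUnion]
      refine ⟨fun i => z (i0.succAbove i), ?_, ?_⟩
      · rw [Fintype.mem_piFinset]
        intro i
        rw [mem_bx]
        have h1 := hi0 (i0.succAbove i) (mem_univ _)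
        rw [← Int.natCast_natAbs]
        exact_mod_cast h1
      · have h1 : (i0.insertNth ((z i0).sign * ((z i0).natAbs : ℤ))
            (fun i => z (i0.succAbove i)) : Fin (n + 1) → ℤ) = z := by
          rw [Int.sign_mul_natAbs]
          exact Fin.insertNth_self_removeNth i0 z
        rw [h1, Zp, if_pos hzp, mem_filter, Fintype.mem_piFinset]
        exact ⟨fun a => mem_bx.2 (hc a), hzv⟩

end Pool.Agent.W2helper36.RF
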