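import Pool.Agent.W2helper36.RF.D

/-!
# The proportion of forms with a zero of bounded height (MP_6e60ff_nt)
-/

set_option autoImplicit false
open Finset Filter Topology

namespace Pool.Agent.W2helper36.RF

theorem P_le (n d H q : ℕ) (hH : 1 ≤ H) (hq : 1 ≤ q) : P n d H q ≤
    3 ^ (n * d) * 2 ^ d * (1 / (q : ℝ) ^ d + 1 / (H : ℝ) ^ d) *
      ((2 * H + 1 : ℕ) : ℝ) ^ (Fintype.card (Expo n d)) / H := by
  unfold P
  set M : ℝ := ((2 * H + 1 : ℕ) : ℝ) with hM
  have hHR : (1 : ℝ) ≤ H := by exact_mod_cast hH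
  have hqR : (1 : ℝ) ≤ q := by exact_mod_cast hq
  have hMH : (H : ℝ) ≤ M := by rw [hM]; push_cast; linarith
  have hH0 : (0 : ℝ) < H := by linarith
  have hM0 : (0 : ℝ) < M := by linarith
  have h1 : (1 / (q : ℝ) + 1 / M) ^ d ≤ 2 ^ d * (1 / (q : ℝ) ^ d + 1 / (H : ℝ) ^ d) := by
    have e1 : 1 / (q : ℝ) + 1 / M ≤ 1 / (q : ℝ) + 1 / H := by
      gcongr
    have e2 : (1 / (q : ℝ) + 1 / M) ^ d ≤ (1 / (q : ℝ) + 1 / H) ^ d :=
      pow_le_pow_left₀ (by positivity) e1 d
    have e3 : (1 / (q : ℝ) + 1 / H) ^ d ≤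
        2 ^ (d - 1) * ((1 / (q : ℝ)) ^ d + (1 / (H : ℝ)) ^ d) :=
      add_pow_le (by positivity) (by positivity) d
    have e4 : (2 : ℝ) ^ (d - 1) ≤ 2 ^ d := pow_le_pow_right₀ (by norm_num) (by omega)
    rw [← one_div_pow, ← one_div_pow]
    refine e2.trans (e3.trans ?_)
    exact mul_le_mul_of_nonneg_right e4 (by positivity)
  have h2 : M ^ (Fintype.card (Expo n d)) / M ≤ M ^ (Fintype.card (Expo n d)) / H := by
    gcongr
  calc 3 ^ (n * d) * (1 / (q : ℝ) + 1 / M) ^ d * M ^ (Fintype.card (Expo n d)) / M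
      = (3 ^ (n * d) * (1 / (q : ℝ) + 1 / M) ^ d) * (M ^ (Fintype.card (Expo n d)) / M) := by ring
    _ ≤ (3 ^ (n * d) * (2 ^ d * (1 / (q : ℝ) ^ d + 1 / (H : ℝ) ^ d))) *
        (M ^ (Fintype.card (Expo n d)) / H) := by
      apply mul_le_mul _ h2 (by positivity) (by positivity)
      exact mul_le_mul_of_nonneg_left h1 (by positivity)
    _ = _ := by ring

/-- the sum over `q` -/
theorem sum_q (n d H b : ℕ) (hd : n + 2 ≤ d) :
    ∑ q ∈ Finset.Icc 1 b, (q : ℝ) ^ n * (1 / (q : ℝ) ^ d + 1 / (H : ℝ) ^ d) ≤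
      2 + (b : ℝ) ^ (n + 1) / (H : ℝ) ^ d := by
  have h1 : ∀ q ∈ Finset.Icc 1 b, (q : ℝ) ^ n * (1 / (q : ℝ) ^ d + 1 / (H : ℝ) ^ d) ≤
      ((q : ℝ) ^ 2)⁻¹ + (b : ℝ) ^ n * (1 / (H : ℝ) ^ d) := by
    intro q hq
    have hq1 : (1 : ℝ) ≤ q := by exact_mod_cast (mem_Icc.1 hq).1
    have hq0 : (0 : ℝ) < q := by linarith
    have hqb : (q : ℝ) ≤ b := by exact_mod_cast (mem_Icc.1 hq).2
    rw [mul_add]
    apply add_le_add
    · have e1 : (q : ℝ) ^ n * (1 / (q : ℝ) ^ d) = ((q : ℝ) ^ (d - n))⁻¹ := by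
        rw [mul_one_div, ← pow_sub_mul_pow (q : ℝ) (show n ≤ d by omega)]
        field_simp
      rw [e1]
      apply inv_anti₀ (by positivity)
      exact pow_le_pow_right₀ hq1 (by omega)
    · apply mul_le_mul_of_nonneg_right _ (by positivity)
      exact pow_le_pow_left₀ hq0.le hqb n
  refine (sum_le_sum h1).trans ?_
  rw [sum_add_distrib, sum_const, Nat.card_Icc, nsmul_eq_mul, Nat.add_sub_cancel]
  apply add_le_add
  · have h2 : Finset.Icc 1 b = Finset.Ioo 0 (b + 1) := by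
      ext x; simp only [mem_Icc, mem_Ioo]; omega
    rw [h2]
    have h3 := sum_Ioo_inv_sq_le (α := ℝ) 0 (b + 1)
    simp only [Nat.cast_zero, zero_add, div_one] at h3
    exact h3
  · apply le_of_eq
    rw [pow_succ]
    ring

theorem card_forms_ge (n d H : ℕ) (hH : 1 ≤ H) :
    ((2 * H + 1 : ℕ) : ℝ) ^ (Fintype.card (Expo n d)) ≤ 2 * ((forms n d H).ncard : ℝ) ∧
    (forms n d H).ncard ≤ (2 * H + 1) ^ (Fintype.card (Expo n d)) := by
  classical
  have h1 : forms n d H = (((Fintype.piFinset fun _ : Expo n d => bx H).erase 0 :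
      Finset (Expo n d → ℤ)) : Set (Expo n d → ℤ)) := by
    ext c
    simp only [forms, Set.mem_setOf_eq, mem_coe, mem_erase, Fintype.mem_piFinset, mem_bx]
  have h0 : (0 : Expo n d → ℤ) ∈ Fintype.piFinset fun _ : Expo n d => bx H := by
    rw [Fintype.mem_piFinset]
    intro a
    rw [mem_bx]
    simp
  have hE : 1 ≤ Fintype.card (Expo n d) := by
    have : Nonempty (Expo n d) := ⟨sg n d 0 none⟩
    exact Fintype.card_pos
  have h2 : (forms n d H).ncard = (2 * H + 1) ^ (Fintype.card (Expo n d)) - 1 := by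
    rw [h1, Set.ncard_coe_finset, card_erase_of_mem h0, Fintype.card_piFinset, prod_const,
      card_bx, card_univ]
  have h3 : 2 ≤ (2 * H + 1) ^ (Fintype.card (Expo n d)) :=
    calc 2 ≤ (2 * H + 1) ^ 1 := by rw [pow_one]; omega
      _ ≤ _ := Nat.pow_le_pow_right (by omega) hE
  constructor
  · have h4 : (2 * H + 1) ^ (Fintype.card (Expo n d)) ≤ 2 * (forms n d H).ncard := by
      rw [h2]; omega
    exact_mod_cast h4
  · rw [h2]; omega

/-- the upper bound -/
theorem upper (n d : ℕ) (hd : n + 2 ≤ d) : ∃ C : ℝ, 0 < C ∧ ∀ (H : ℕ) (B : ℝ), 1 ≤ H → 0 ≤ B →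
    ((withZero n d H B).ncard : ℝ) ≤
      C * (1 / H + B ^ (n + 1) / (H : ℝ) ^ (d + 1)) * ((forms n d H).ncard : ℝ) := by
  refine ⟨((n + 1 : ℕ) : ℝ) * (2 * 3 ^ n) * (3 ^ (n * d) * 2 ^ d) * 4, by positivity, ?_⟩
  intro H B hH hB
  have hHR : (1 : ℝ) ≤ H := by exact_mod_cast hH
  have hH0 : (0 : ℝ) < H := by linarith
  set b : ℕ := ⌊B⌋₊ with hb
  set M : ℝ := ((2 * H + 1 : ℕ) : ℝ) with hM
  set N : ℝ := M ^ (Fintype.card (Expo n d)) with hN
  have hN0 : 0 ≤ N := by rw [hN, hM]; positivity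
  have h1 : (withZero n d H B).ncard ≤ (U n d H b).card := by
    rw [← Set.ncard_coe_finset]
    exact Set.ncard_le_ncard (withZero_subset n d H B) (Finset.finite_toSet _)
  have h1' : ((withZero n d H B).ncard : ℝ) ≤ (((U n d H b).card : ℕ) : ℝ) := by
    exact_mod_cast h1
  refine (h1'.trans (card_U n d H b)).trans ?_
  have h2 : ∑ q ∈ Finset.Icc 1 b, 2 * ((2 * q + 1 : ℕ) : ℝ) ^ n * P n d H q ≤
      ∑ q ∈ Finset.Icc 1 b, (2 * 3 ^ n * (3 ^ (n * d) * 2 ^ d) * N / H) *
        ((q : ℝ) ^ n * (1 / (q : ℝ) ^ d + 1 / (H : ℝ) ^ d)) := by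
    refine sum_le_sum fun q hq => ?_
    have hq1 : 1 ≤ q := (mem_Icc.1 hq).1
    have hqR : (1 : ℝ) ≤ q := by exact_mod_cast hq1
    have e1 : ((2 * q + 1 : ℕ) : ℝ) ^ n ≤ 3 ^ n * (q : ℝ) ^ n := by
      rw [← mul_pow]
      apply pow_le_pow_left₀ (by positivity)
      push_cast
      linarith
    have e2 := P_le n d H q hH hq1
    calc 2 * ((2 * q + 1 : ℕ) : ℝ) ^ n * P n d H q
        ≤ 2 * (3 ^ n * (q : ℝ) ^ n) * (3 ^ (n * d) * 2 ^ d *
          (1 / (q : ℝ) ^ d + 1 / (H : ℝ) ^ d) * N / H) := by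
          apply mul_le_mul _ e2 (P_nonneg n d H q) (by positivity)
          exact mul_le_mul_of_nonneg_left e1 (by norm_num)
      _ = _ := by ring
  rw [← mul_sum] at h2
  have h3 := sum_q n d H b hd
  have h4 : (b : ℝ) ≤ B := Nat.floor_le hB
  have h5 : 2 + (b : ℝ) ^ (n + 1) / (H : ℝ) ^ d ≤ 2 * (1 + B ^ (n + 1) / (H : ℝ) ^ d) := by
    have e1 : (b : ℝ) ^ (n + 1) / (H : ℝ) ^ d ≤ B ^ (n + 1) / (H : ℝ) ^ d := by
      gcongr
    have e2 : 0 ≤ B ^ (n + 1) / (H : ℝ) ^ d := by positivity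
    linarith
  have h6 : N ≤ 2 * ((forms n d H).ncard : ℝ) := (card_forms_ge n d H hH).1
  calc ((n + 1 : ℕ) : ℝ) * ∑ q ∈ Finset.Icc 1 b, 2 * ((2 * q + 1 : ℕ) : ℝ) ^ n * P n d H q
      ≤ ((n + 1 : ℕ) : ℝ) * ((2 * 3 ^ n * (3 ^ (n * d) * 2 ^ d) * N / H) *
        (2 * (1 + B ^ (n + 1) / (H : ℝ) ^ d))) := by
        apply mul_le_mul_of_nonneg_left _ (by positivity)
        refine h2.trans ?_
        apply mul_le_mul_of_nonneg_left (h3.trans h5) (by positivity)
    _ = ((n + 1 : ℕ) : ℝ) * (2 * 3 ^ n) * (3 ^ (n * d) * 2 ^ d) * 2 *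
        (1 / H + B ^ (n + 1) / (H : ℝ) ^ (d + 1)) * N := by
        rw [pow_succ (H : ℝ) d]
        field_simp
    _ ≤ ((n + 1 : ℕ) : ℝ) * (2 * 3 ^ n) * (3 ^ (n * d) * 2 ^ d) * 2 *
        (1 / H + B ^ (n + 1) / (H : ℝ) ^ (d + 1)) * (2 * ((forms n d H).ncard : ℝ)) := by
        apply mul_le_mul_of_nonneg_left h6
        have : 0 ≤ B ^ (n + 1) / (H : ℝ) ^ (d + 1) := by positivity
        positivity
    _ = _ := by ring

/-- the lower bound -/
theorem lower (n d H : ℕ) (B : ℝ) (hn : 1 ≤ n) (hd : 1 ≤ d) (hH : 1 ≤ H) (hB : 1 ≤ B) :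
    ((forms n d H).ncard : ℝ) / (6 * H) ≤ ((withZero n d H B).ncard : ℝ) := by
  classical
  set E : ℕ := Fintype.card (Expo n d) with hE
  set a0 : Expo n d := sg n d 0 none with ha0
  -- forms with vanishing coefficient at `a0`
  set V : Finset (Expo n d → ℤ) := (Fintype.piFinset fun a : Expo n d =>
    if a = a0 then ({0} : Finset ℤ) else bx H).erase 0 with hV
  have hE2 : 2 ≤ E := by
    have h1 := Fintype.card_le_of_injective _ (sg_injective n d 0)
    rw [Fintype.card_option, Fintype.card_prod, Fintype.card_fin, Fintype.card_fin] at h1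
    have h2 : 1 ≤ d * n := Nat.mul_pos hd hn
    omega
  have hVcard : V.card = (2 * H + 1) ^ (E - 1) - 1 := by
    rw [hV, card_erase_of_mem, Fintype.card_piFinset]
    · congr 1
      rw [← Finset.mul_prod_erase _ _ (mem_univ a0)]
      rw [if_pos rfl, card_singleton, one_mul]
      rw [prod_congr rfl (g := fun _ => 2 * H + 1) (fun a ha => by
        rw [if_neg (ne_of_mem_erase ha), card_bx])]
      rw [prod_const, card_erase_of_mem (mem_univ _), card_univ]
    · rw [Fintype.mem_piFinset]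
      intro a
      split_ifs
      · simp
      · rw [mem_bx]; simp
  have hsub : (V : Set (Expo n d → ℤ)) ⊆ withZero n d H B := by
    intro c hc
    rw [hV, mem_coe, mem_erase, Fintype.mem_piFinset] at hc
    have hc0 : c a0 = 0 := by
      have := hc.2 a0
      rw [if_pos rfl, mem_singleton] at this
      exact this
    refine ⟨⟨hc.1, fun a => ?_⟩, Pi.single 0 1, ?_, ?_, ?_⟩
    · by_cases h : a = a0
      · rw [h, hc0]; simp
      · have := hc.2 a
        rw [if_neg h, mem_bx] at this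
        exact this
    · intro h
      have := congrFun h 0
      rw [Pi.single_eq_same] at this
      exact one_ne_zero this
    · intro i
      by_cases h : i = 0
      · rw [h, Pi.single_eq_same]; simpa using hB
      · rw [Pi.single_eq_of_ne h]; simp; linarith
    · unfold value
      apply Finset.sum_eq_zero
      intro a _
      by_cases h : a = a0
      · rw [h, hc0, zero_mul]
      · -- some exponent outside `0` is positive
        obtain ⟨i, hi0, hi⟩ : ∃ i : Fin (n + 1), i ≠ 0 ∧ a.1 i ≠ 0 := by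
          by_contra hcon
          push Not at hcon
          apply h
          apply Subtype.ext
          funext i
          have hsum := Finset.Nat.mem_antidiagonalTuple.1 a.2
          by_cases h0 : i = 0
          · rw [h0, ha0]
            simp only [sg, Pi.single_eq_same]
            rw [Finset.sum_eq_single 0 (fun b _ hb => hcon b hb)
              (fun h => absurd (mem_univ _) h)] at hsum
            exact hsum
          · rw [hcon i h0, ha0]
            simp only [sg]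
            rw [Pi.single_eq_of_ne h0]
        rw [Finset.prod_eq_zero (mem_univ i), mul_zero]
        rw [Pi.single_eq_of_ne hi0, zero_pow hi]
  have hfin : (withZero n d H B).Finite :=
    (Finset.finite_toSet _).subset (withZero_subset n d H B)
  have h1 : V.card ≤ (withZero n d H B).ncard := by
    rw [← Set.ncard_coe_finset]
    exact Set.ncard_le_ncard hsub hfin
  have h2 := (card_forms_ge n d H hH).2
  have h3 : (2 * H + 1) ^ (E - 1) ≤ 2 * V.card := by
    rw [hVcard]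
    have : 2 ≤ (2 * H + 1) ^ (E - 1) :=
      calc 2 ≤ (2 * H + 1) ^ 1 := by rw [pow_one]; omega
        _ ≤ _ := Nat.pow_le_pow_right (by omega) (by omega)
    omega
  have h4 : (forms n d H).ncard ≤ 6 * H * (withZero n d H B).ncard := by
    calc (forms n d H).ncard ≤ (2 * H + 1) ^ E := h2
      _ = (2 * H + 1) ^ (E - 1) * (2 * H + 1) := by
        rw [← pow_succ]; congr 1; omega
      _ ≤ (2 * V.card) * (3 * H) := Nat.mul_le_mul h3 (by omega)
      _ ≤ (2 * (withZero n d H B).ncard) * (3 * H) :=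
        Nat.mul_le_mul_right _ (Nat.mul_le_mul_left _ h1)
      _ = _ := by ring
  have hHR : (0 : ℝ) < H := by exact_mod_cast hH
  rw [div_le_iff₀ (by positivity)]
  have h5 : ((forms n d H).ncard : ℝ) ≤ 6 * H * ((withZero n d H B).ncard : ℝ) := by
    exact_mod_cast h4
  linarith

/-- density zero for the zeros of height at most `H^A` -/
theorem density (n d : ℕ) (hd : n + 2 ≤ d) (A : ℝ) (hA : A * (n + 1) < d + 1) :
    Tendsto (fun H : ℕ => ((withZero n d H ((H : ℝ) ^ A)).ncard : ℝ) /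
      ((forms n d H).ncard : ℝ)) atTop (𝓝 0) := by
  obtain ⟨C, hC0, hC⟩ := upper n d hd
  have h1 : Tendsto (fun H : ℕ => C * (1 / (H : ℝ) + (H : ℝ) ^ (A * (n + 1) - (d + 1))))
      atTop (𝓝 (C * (0 + 0))) := by
    apply Tendsto.const_mul
    apply Tendsto.add
    · exact tendsto_one_div_atTop_nhds_zero_nat
    · have h2 : Tendsto (fun x : ℝ => x ^ (-((d + 1 : ℝ) - A * (n + 1)))) atTop (𝓝 0) :=
        tendsto_rpow_neg_atTop (by linarith)
      have h3 := h2.comp (tendsto_natCast_atTop_atTop (R := ℝ))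
      refine h3.congr fun H => ?_
      simp only [Function.comp]
      congr 1
      ring
  rw [add_zero, mul_zero] at h1
  refine squeeze_zero' (Eventually.of_forall fun H => by positivity) ?_ h1
  filter_upwards [eventually_ge_atTop 1] with H hH
  have hHR : (0 : ℝ) < H := by exact_mod_cast hH
  have h2 := hC H ((H : ℝ) ^ A) hH (Real.rpow_nonneg hHR.le _)
  have h3 : ((H : ℝ) ^ A) ^ (n + 1) / (H : ℝ) ^ (d + 1) =
      (H : ℝ) ^ (A * (n + 1) - (d + 1)) := by
    rw [Real.rpow_sub hHR, ← Real.rpow_natCast ((H : ℝ) ^ A), ← Real.rpow_mul hHR.le]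
    congr 1
    · push_cast; rfl
    · rw [← Real.rpow_natCast]; push_cast; rfl
  rw [h3] at h2
  apply div_le_of_le_mul₀ (Nat.cast_nonneg _) (by positivity) h2

end Pool.Agent.W2helper36.RF
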